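import Pool.Agent.H93.BL.Targets

/-!
# Half disc structure at an inner point of a side
-/

namespace Pool.Agent.H31.BL.G1

open MeasureTheory Set Pool.Agent.H93.BL

lemma isClosed_seg (a b : ℂ) : IsClosed (segment ℝ a b) := by
  rw [segment_eq_image']
  exact (isCompact_Icc.image (by fun_prop)).isClosed

lemma subset_of_no_frontier {S Ω : Set ℂ} (hS : IsPreconnected S) (hΩ : IsOpen Ω)
    (hne : (S ∩ Ω).Nonempty) (hf : ∀ y ∈ S, y ∉ frontier Ω) : S ⊆ Ω := by
  refine IsPreconnected.subset_left_of_subset_union hΩ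
    (isClosed_closure (s := Ω)).isOpen_compl ?_ ?_ hne hS
  · rw [Set.disjoint_left]
    intro y hy hy'
    exact hy' (subset_closure hy)
  · intro y hy
    by_cases h : y ∈ Ω
    · exact Or.inl h
    · right
      intro hc
      refine hf y hy ?_
      rw [frontier, hΩ.interior_eq]
      exact ⟨hc, h⟩

lemma convex_ball_half (x n : ℂ) (ρ c : ℝ) :
    Convex ℝ {y : ℂ | dist y x < ρ ∧ 0 < c * ip (y - x) n} := by
  have h1 : Convex ℝ (Metric.ball x ρ) := convex_ball x ρ
  have h2 : Convex ℝ {y : ℂ | c * ip x n < c * ip y n} := by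
    refine convex_halfSpace_gt (IsLinearMap.mk ?_ ?_) _
    · intro a b
      simp only [ip_add_left]
      ring
    · intro t a
      simp only [ip, Complex.real_smul, Complex.mul_re, Complex.mul_im, Complex.ofReal_re,
        Complex.ofReal_im, smul_eq_mul]
      ring
  have h3 : {y : ℂ | dist y x < ρ ∧ 0 < c * ip (y - x) n} =
      Metric.ball x ρ ∩ {y : ℂ | c * ip x n < c * ip y n} := by
    ext y
    simp only [mem_ofPred_eq, mem_inter_iff, Metric.mem_ball, ip_sub_left, mul_sub, sub_pos]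
  rw [h3]
  exact h1.inter h2

theorem g1 : T_G1 := by
  intro ι _ P j x hx
  classical
  obtain ⟨s0, hs0, hs1, hxs⟩ := (P.mem_openSegment_iff j x).1 hx
  set F : Set ℂ := ⋃ i ∈ {i : ι | x ∉ segment ℝ (P.p i) (P.q i)}, segment ℝ (P.p i) (P.q i)
    with hF
  have hFc : IsClosed F := by
    rw [hF]
    exact Set.Finite.isClosed_biUnion (Set.toFinite _) (fun i _ => isClosed_seg _ _)
  have hxF : x ∈ Fᶜ := by
    intro h
    rw [hF, mem_iUnion₂] at h
    obtain ⟨i, hi, hi'⟩ := h
    exact hi hi'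
  obtain ⟨ρ1, hρ1, hball⟩ := Metric.isOpen_iff.1 hFc.isOpen_compl x hxF
  set ρ : ℝ := min ρ1 (min s0 (P.len j - s0)) with hρ
  have hρ0 : 0 < ρ := lt_min hρ1 (lt_min hs0 (by linarith))
  have hρa : ρ ≤ ρ1 := min_le_left _ _
  have hρb : ρ ≤ s0 := (min_le_right _ _).trans (min_le_left _ _)
  have hρc : ρ ≤ P.len j - s0 := (min_le_right _ _).trans (min_le_right _ _)
  have hseg : ∀ i, x ∈ segment ℝ (P.p i) (P.q i) →
      segment ℝ (P.p i) (P.q i) = segment ℝ (P.p j) (P.q j) := by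
    intro i hi
    by_cases hij : j = i
    · subst hij; rfl
    · rcases P.meet j i hij with h | h
      · exact absurd hi (Set.disjoint_left.1 h hx)
      · rw [h.1, h.2, segment_symm]
  have hfr : ∀ y, dist y x < ρ → y ∈ frontier P.Ω → ip (y - x) (P.n j) = 0 := by
    intro y hy hyf
    rw [P.frontier_eq, mem_iUnion] at hyf
    obtain ⟨i, hi⟩ := hyf
    have hxi : x ∈ segment ℝ (P.p i) (P.q i) := by
      by_contra hxi
      have : y ∈ F := by
        rw [hF, mem_iUnion₂]
        exact ⟨i, hxi, hi⟩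
      exact hball (Metric.mem_ball.2 (hy.trans_le hρa)) this
    rw [hseg i hxi] at hi
    obtain ⟨s, -, -, hs⟩ := (P.mem_segment_iff j y).1 hi
    rw [hs, hxs]
    exact P.ip_line j s s0
  have hlen := P.len_pos j
  have hpm : ∀ c : ℝ, c ≠ 0 → ({y : ℂ | dist y x < ρ ∧ 0 < c * ip (y - x) (P.n j)} ∩
      P.Ω).Nonempty → {y : ℂ | dist y x < ρ ∧ 0 < c * ip (y - x) (P.n j)} ⊆ P.Ω := by
    intro c hc hne
    refine subset_of_no_frontier (convex_ball_half x (P.n j) ρ c).isPreconnected P.isOpen hne ?_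
    rintro y ⟨hy1, hy2⟩ hy3
    rw [hfr y hy1 hy3, mul_zero] at hy2
    exact lt_irrefl _ hy2
  have hI : Complex.I * (P.q j - P.p j) = (P.len j : ℂ) * P.n j := by
    rw [P.q_sub j, Polygon.n]; ring
  have hnorm : ∀ t : ℝ, ‖(t : ℂ) * (Complex.I * (P.q j - P.p j))‖ = |t| * P.len j := by
    intro t
    rw [hI, norm_mul, norm_mul, P.norm_n, Complex.norm_real, Complex.norm_real,
      Real.norm_eq_abs, Real.norm_of_nonneg hlen.le, mul_one]
  have hip : ∀ t : ℝ, ip ((t : ℂ) * (Complex.I * (P.q j - P.p j))) (P.n j) = t * P.len j := by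
    intro t
    rw [hI, ip_smul_left, ip_smul_left, P.ip_n_n, mul_one]
  refine ⟨ρ, hρ0, ?_, ?_, hfr, ?_⟩
  · have hsub : {y : ℂ | dist y x < ρ ∧ 0 < (1 : ℝ) * ip (y - x) (P.n j)} ⊆ P.Ω := by
      refine hpm 1 one_ne_zero ?_
      obtain ⟨ε, hε, hin⟩ := P.left j x hx
      set t : ℝ := min (ε / 2) (ρ / (2 * P.len j)) with ht
      have ht0 : 0 < t := lt_min (by positivity) (by positivity)
      have ht1 : t < ε := (min_le_left _ _).trans_lt (by linarith)
      have ht2 : t * P.len j < ρ := by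
        have h1 : t ≤ ρ / (2 * P.len j) := min_le_right _ _
        have h2 : t * P.len j ≤ ρ / (2 * P.len j) * P.len j :=
          mul_le_mul_of_nonneg_right h1 hlen.le
        have h3 : ρ / (2 * P.len j) * P.len j = ρ / 2 := by field_simp
        linarith
      refine ⟨x + (t : ℂ) * (Complex.I * (P.q j - P.p j)), ⟨?_, ?_⟩, hin t ⟨ht0, ht1⟩⟩
      · rw [dist_eq_norm, add_sub_cancel_left, hnorm, abs_of_pos ht0]
        exact ht2
      · rw [add_sub_cancel_left, hip, one_mul]
        exact mul_pos ht0 hlen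
    intro y hy1 hy2
    exact hsub ⟨hy1, by rw [one_mul]; exact hy2⟩
  · intro y hy1 hy2
    have hd := decomp (P.u j) (y - x) (P.norm_u j)
    rw [← P.ip_n, hy2] at hd
    have hσ : |ip (y - x) (P.u j)| < ρ := by
      refine (abs_ip_le _ _).trans_lt ?_
      rw [P.norm_u, mul_one, ← dist_eq_norm]
      exact hy1
    rw [abs_lt] at hσ
    rw [P.mem_openSegment_iff]
    refine ⟨s0 + ip (y - x) (P.u j), by linarith, by linarith, ?_⟩
    rw [Complex.ofReal_zero, zero_mul, add_zero] at hd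
    push_cast
    linear_combination hd + hxs
  · rintro ⟨y, hy1, hy2, hy3⟩
    have hsub : {y : ℂ | dist y x < ρ ∧ 0 < (-1 : ℝ) * ip (y - x) (P.n j)} ⊆ P.Ω := by
      refine hpm (-1) (by norm_num) ⟨y, ⟨hy1, ?_⟩, hy3⟩
      linarith
    refine P.slit j x hx ⟨ρ / P.len j, by positivity, ?_⟩
    intro t ht
    apply hsub
    have ht2 : t * P.len j < ρ := (lt_div_iff₀ hlen).1 ht.2
    have h1 : x - (t : ℂ) * (Complex.I * (P.q j - P.p j)) - x =
        ((-t : ℝ) : ℂ) * (Complex.I * (P.q j - P.p j)) := by push_cast; ring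
    refine ⟨?_, ?_⟩
    · rw [dist_eq_norm, h1, hnorm, abs_neg, abs_of_pos ht.1]
      exact ht2
    · rw [h1, hip]
      have := mul_pos ht.1 hlen
      linarith

end Pool.Agent.H31.BL.G1
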