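import Pool.Agent.H93.BL.Targets

/-!
# The topological argument
-/

namespace Pool.Agent.H31.BL.D2

open MeasureTheory Set Pool.Agent.H93.BL

section

variable {ι : Type} (P : Polygon ι)

lemma start_of_mem {y : ℂ} (v : ℂ) (hy : y ∈ P.Ω) : P.Start y v := by
  obtain ⟨ε, hε, hb⟩ := Metric.isOpen_iff.1 P.isOpen y hy
  have hn : 0 < ‖v‖ + 1 := by positivity
  refine ⟨ε / (‖v‖ + 1), by positivity, ?_⟩
  intro r hr
  apply hb
  rw [Metric.mem_ball, dist_eq_norm, add_sub_cancel_left, norm_mul, Complex.norm_real,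
    Real.norm_of_nonneg hr.1.le]
  have h2 : r * (‖v‖ + 1) < ε := (lt_div_iff₀ hn).1 hr.2
  nlinarith [hr.1, norm_nonneg v]

/-- a point of `Ω` whose backward ray hits a given inner point of a side -/
lemma back {j : ι} {x v : ℂ} (hx : x ∈ openSegment ℝ (P.p j) (P.q j))
    (hs : P.Start x v) (hv : 0 < ip v (P.n j)) : ∃ y ∈ P.Ω, ∃ t, P.Hit y (-v) j t := by
  obtain ⟨ε, hε, h⟩ := hs
  refine ⟨x + ((ε / 2 : ℝ) : ℂ) * v, h (ε / 2) ⟨by positivity, by linarith⟩, ε / 2, by positivity,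
    ?_, ?_, ?_⟩
  · intro r hr
    have e1 : x + ((ε / 2 : ℝ) : ℂ) * v + (r : ℂ) * -v = x + ((ε / 2 - r : ℝ) : ℂ) * v := by
      push_cast; ring
    rw [e1]
    exact h _ ⟨by linarith [hr.2], by linarith [hr.1]⟩
  · have e1 : x + ((ε / 2 : ℝ) : ℂ) * v + ((ε / 2 : ℝ) : ℂ) * -v = x := by ring
    rw [e1]
    exact hx
  · rw [ip_neg_left]
    linarith

/-- two hits in opposite directions give a step -/
lemma step_of_hits {y v : ℂ} {j j' : ι} {t t' : ℝ} (hv : ‖v‖ = 1) (hy : y ∈ P.Ω)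
    (h : P.Hit y (-v) j t) (h' : P.Hit y v j' t') :
    P.GStep (j, y + (t : ℂ) * -v, v) (j', y + (t : ℂ) * -v + ((t + t' : ℝ) : ℂ) * v,
      P.refl j' v) := by
  obtain ⟨a1, a2, a3, a4⟩ := h
  obtain ⟨b1, b2, b3, b4⟩ := h'
  rw [ip_neg_left] at a4
  refine ⟨⟨a3, hv, by linarith⟩, t + t', ⟨by linarith, ?_, ?_, b4⟩, rfl, rfl⟩
  · intro r hr
    change y + (t : ℂ) * -v + (r : ℂ) * v ∈ P.Ω
    rcases lt_trichotomy r t with hrt | hrt | hrt
    · have e1 : y + (t : ℂ) * -v + (r : ℂ) * v = y + ((t - r : ℝ) : ℂ) * -v := by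
        push_cast; ring
      rw [e1]
      exact a2 _ ⟨by linarith, by linarith [hr.1]⟩
    · have e1 : y + (t : ℂ) * -v + (r : ℂ) * v = y := by rw [hrt]; ring
      rw [e1]
      exact hy
    · have e1 : y + (t : ℂ) * -v + (r : ℂ) * v = y + ((r - t : ℝ) : ℂ) * v := by
        push_cast; ring
      rw [e1]
      exact b2 _ ⟨by linarith, by linarith [hr.2]⟩
  · change y + (t : ℂ) * -v + ((t + t' : ℝ) : ℂ) * v ∈ openSegment ℝ (P.p j') (P.q j')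
    have e1 : y + (t : ℂ) * -v + ((t + t' : ℝ) : ℂ) * v = y + (t' : ℂ) * v := by
      push_cast; ring
    rw [e1]
    exact b3

lemma mem_DD {w w' v : ℂ} {s : ℝ} (hs : 0 < s) (hv : ‖v‖ = 1) (hw : P.Vtx w) (hw' : P.Vtx w')
    (h : w' - w = (s : ℂ) * v) : v ∈ P.DD := by
  have hnorm : ‖(s : ℂ) * v‖ = s := by
    rw [norm_mul, hv, mul_one, Complex.norm_real, Real.norm_of_nonneg hs.le]
  have hne : (s : ℂ) ≠ 0 := by exact_mod_cast hs.ne'
  have e : P.affL [] w' = w' := rfl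
  refine ⟨[], w, w', hw, hw', ?_, ?_⟩
  · rw [e, h, ← norm_pos_iff, hnorm]
    exact hs
  · rw [e, h, hnorm, mul_div_cancel_left₀ _ hne]

end

theorem d2 : T_G1 → T_G2 → T_G3 → T_G4 → T_G5a → T_D2 := by
  intro _ hG2 hG3 hG4 hG5 ι _ P E C hE hDD W hW hinv
  classical
  by_contra hWne
  obtain ⟨⟨j0, v⟩, hj0⟩ := Set.nonempty_iff_ne_empty.2 hWne
  obtain ⟨-, hvC, -, hv1, hv0⟩ := hW j0 v hj0
  have hvD : v ∉ P.DD := hDD v hvC
  have hvne : v ≠ 0 := by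
    rw [← norm_pos_iff, hv1]; exact one_pos
  let Pp : ℂ → Prop := fun y => (∃ j t, P.Hit y (-v) j t ∧ (j, v) ∈ W) ∨
    (∃ j t, P.Hit y v j t ∧ (j, P.refl j v) ∈ W)
  let Qz : ℂ → Prop := fun y => (∃ j t, P.Hit y (-v) j t ∧ (j, v) ∉ W) ∨
    (∃ j t, P.Hit y v j t ∧ (j, P.refl j v) ∉ W)
  have hcover : ∀ y ∈ P.Ω, Pp y ∨ Qz y := by
    intro y hy
    obtain ⟨t, ht⟩ := hG3 ι P y v hvne (start_of_mem P v hy)
    obtain ⟨t', ht'⟩ := hG3 ι P y (-v) (neg_ne_zero.2 hvne) (start_of_mem P (-v) hy)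
    rcases ht with ⟨j, hj⟩ | ⟨w', hw'⟩
    · by_cases hm : (j, P.refl j v) ∈ W
      · exact Or.inl (Or.inr ⟨j, t, hj, hm⟩)
      · exact Or.inr (Or.inr ⟨j, t, hj, hm⟩)
    · rcases ht' with ⟨j, hj⟩ | ⟨w, hw⟩
      · by_cases hm : (j, v) ∈ W
        · exact Or.inl (Or.inl ⟨j, t', hj, hm⟩)
        · exact Or.inr (Or.inl ⟨j, t', hj, hm⟩)
      · exfalso
        obtain ⟨a1, -, a3, a4⟩ := hw'
        obtain ⟨b1, -, b3, b4⟩ := hw
        refine hvD (mem_DD P (add_pos a1 b1) hv1 b4 a4 ?_)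
        rw [← a3, ← b3]
        push_cast
        ring
  have hdisj : ∀ y ∈ P.Ω, Pp y → Qz y → False := by
    intro y hy hP hQ
    obtain ⟨g1, -, -⟩ := hG4 ι P y v
    obtain ⟨g1', -, -⟩ := hG4 ι P y (-v)
    rcases hP with ⟨j, t, h1, h2⟩ | ⟨j, t, h1, h2⟩
    · rcases hQ with ⟨j', t', h3, h4⟩ | ⟨j', t', h3, h4⟩
      · have := (g1' j j' t t' h1 h3).2
        subst this
        exact h4 h2
      · exact h4 ((hinv _ _ _ _ _ _ (step_of_hits P hv1 hy h1 h3)).1 h2)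
    · rcases hQ with ⟨j', t', h3, h4⟩ | ⟨j', t', h3, h4⟩
      · exact h4 ((hinv _ _ _ _ _ _ (step_of_hits P hv1 hy h3 h1)).2 h2)
      · have := (g1 j j' t t' h1 h3).2
        subst this
        exact h4 h2
  have hopenhit : ∀ (y v' : ℂ) (j : ι) (t : ℝ), y ∈ P.Ω → P.Hit y v' j t →
      ∃ ε > (0 : ℝ), ∀ y', dist y' y < ε → y' ∈ P.Ω ∧ ∃ t', P.Hit y' v' j t' := by
    intro y v' j t hy hh
    obtain ⟨ε1, hε1, hb⟩ := Metric.isOpen_iff.1 P.isOpen y hy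
    obtain ⟨ε2, hε2, h2⟩ := hG5 ι P y v' j t hy hh
    refine ⟨min ε1 ε2, lt_min hε1 hε2, fun y' hy' => ⟨?_, ?_⟩⟩
    · exact hb (Metric.mem_ball.2 (hy'.trans_le (min_le_left _ _)))
    · exact h2 y' v' (hy'.trans_le (min_le_right _ _)) (by rw [dist_self]; exact hε2)
  have hPo : IsOpen {y : ℂ | y ∈ P.Ω ∧ Pp y} := by
    rw [Metric.isOpen_iff]
    rintro y ⟨hy, hP⟩
    rcases hP with ⟨j, t, h1, h2⟩ | ⟨j, t, h1, h2⟩
    · obtain ⟨ε, hε, h⟩ := hopenhit y (-v) j t hy h1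
      refine ⟨ε, hε, fun y' hy' => ?_⟩
      obtain ⟨e1, t', e2⟩ := h y' hy'
      exact ⟨e1, Or.inl ⟨j, t', e2, h2⟩⟩
    · obtain ⟨ε, hε, h⟩ := hopenhit y v j t hy h1
      refine ⟨ε, hε, fun y' hy' => ?_⟩
      obtain ⟨e1, t', e2⟩ := h y' hy'
      exact ⟨e1, Or.inr ⟨j, t', e2, h2⟩⟩
  have hQo : IsOpen {y : ℂ | y ∈ P.Ω ∧ Qz y} := by
    rw [Metric.isOpen_iff]
    rintro y ⟨hy, hP⟩
    rcases hP with ⟨j, t, h1, h2⟩ | ⟨j, t, h1, h2⟩
    · obtain ⟨ε, hε, h⟩ := hopenhit y (-v) j t hy h1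
      refine ⟨ε, hε, fun y' hy' => ?_⟩
      obtain ⟨e1, t', e2⟩ := h y' hy'
      exact ⟨e1, Or.inl ⟨j, t', e2, h2⟩⟩
    · obtain ⟨ε, hε, h⟩ := hopenhit y v j t hy h1
      refine ⟨ε, hε, fun y' hy' => ?_⟩
      obtain ⟨e1, t', e2⟩ := h y' hy'
      exact ⟨e1, Or.inr ⟨j, t', e2, h2⟩⟩
  have hmid : ∀ j : ι, ∃ x, x ∈ openSegment ℝ (P.p j) (P.q j) := by
    intro j
    refine ⟨P.p j + ((P.len j / 2 : ℝ) : ℂ) * P.u j, (P.mem_openSegment_iff j _).2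
      ⟨P.len j / 2, ?_, ?_, rfl⟩⟩
    · have := P.len_pos j; positivity
    · have := P.len_pos j; linarith
  have hPne : (P.Ω ∩ {y : ℂ | y ∈ P.Ω ∧ Pp y}).Nonempty := by
    obtain ⟨x0, hx0⟩ := hmid j0
    obtain ⟨y, hy, t, ht⟩ := back P hx0 (hG2 ι P j0 x0 v hx0 hv0) hv0
    exact ⟨y, hy, hy, Or.inl ⟨j0, t, ht, hj0⟩⟩
  have hQne : ∃ y ∈ P.Ω, Qz y := by
    obtain ⟨e, he⟩ := hE
    obtain ⟨x0, hx0⟩ := hmid e
    have hnot : ∀ v', (e, v') ∉ W := fun v' h => (hW e v' h).1 he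
    rcases lt_trichotomy (ip v (P.n e)) 0 with h | h | h
    · have h' : 0 < ip (-v) (P.n e) := by rw [ip_neg_left]; linarith
      obtain ⟨y, hy, t, ht⟩ := back P hx0 (hG2 ι P e x0 (-v) hx0 h') h'
      rw [neg_neg] at ht
      exact ⟨y, hy, Or.inr ⟨e, t, ht, hnot _⟩⟩
    · exfalso
      have hd := decomp (P.u e) v (P.norm_u e)
      rw [← P.ip_n, h, Complex.ofReal_zero, zero_mul, add_zero] at hd
      have hsq := ip_sq_add_cr_sq v (P.u e)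
      rw [hv1, P.norm_u, P.cr_u, h] at hsq
      have hs1 : ip v (P.u e) = 1 ∨ ip v (P.u e) = -1 := by
        have h1 : (ip v (P.u e) - 1) * (ip v (P.u e) + 1) = 0 := by linear_combination hsq
        rcases mul_eq_zero.1 h1 with h2 | h2
        · exact Or.inl (by linarith)
        · exact Or.inr (by linarith)
      have hq : P.q e - P.p e = (P.len e : ℂ) * P.u e := P.q_sub e
      rcases hs1 with hs | hs
      · rw [hs, Complex.ofReal_one, one_mul] at hd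
        refine hvD (mem_DD P (P.len_pos e) hv1 (w := P.p e) (w' := P.q e) ⟨e, Or.inl rfl⟩
          ⟨e, Or.inr rfl⟩ ?_)
        rw [hq, ← hd]
      · rw [hs] at hd
        have hd' : v = -P.u e := by rw [hd]; push_cast; ring
        refine hvD (mem_DD P (P.len_pos e) hv1 (w := P.q e) (w' := P.p e) ⟨e, Or.inr rfl⟩
          ⟨e, Or.inl rfl⟩ ?_)
        rw [hd']
        linear_combination -hq
    · obtain ⟨y, hy, t, ht⟩ := back P hx0 (hG2 ι P e x0 v hx0 h) h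
      exact ⟨y, hy, Or.inl ⟨e, t, ht, hnot _⟩⟩
  have hsub := IsPreconnected.subset_left_of_subset_union hPo hQo
    (by
      rw [Set.disjoint_left]
      rintro y ⟨hy, hP⟩ ⟨-, hQ⟩
      exact hdisj y hy hP hQ)
    (by
      intro y hy
      rcases hcover y hy with h | h
      · exact Or.inl ⟨hy, h⟩
      · exact Or.inr ⟨hy, h⟩) hPne P.isConnected.isPreconnected
  obtain ⟨y, hy, hQ⟩ := hQne
  exact hdisj y hy (hsub hy).2 hQ

end Pool.Agent.H31.BL.D2
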