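import Pool.Agent.H93.BL.Targets

/-!
# A ray pointing inwards starts in the table
-/

namespace Pool.Agent.H31.BL.G2

open MeasureTheory Set Pool.Agent.H93.BL

theorem g2 : T_G1 → T_G2 := by
  intro hG ι _ P j x v hx hv
  obtain ⟨ρ, hρ, h1, -, -, -⟩ := hG ι P j x hx
  have hn : 0 < ‖v‖ + 1 := by positivity
  refine ⟨ρ / (‖v‖ + 1), by positivity, ?_⟩
  intro r hr
  apply h1
  · rw [dist_eq_norm, add_sub_cancel_left, norm_mul, Complex.norm_real,
      Real.norm_of_nonneg hr.1.le]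
    have h2 : r * (‖v‖ + 1) < ρ := (lt_div_iff₀ hn).1 hr.2
    nlinarith [hr.1, norm_nonneg v]
  · rw [add_sub_cancel_left, ip_smul_left]
    exact mul_pos hr.1 hv

end Pool.Agent.H31.BL.G2
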