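import Pool.Agent.H93.BL.Targets

/-!
# The interval system has no saddle chains
-/

namespace Pool.Agent.H31.BL.L8

open MeasureTheory Set Pool.Agent.H93.BL

lemma chain_fun {ι : Type} (P : Polygon ι) (E : Set ι) (C : Set ℂ)
    (S : HoleSys (P.Leg E C)) (hS : S.st = P.lst E C) : ∀ (n : ℕ) (z z' : P.Leg E C × ℝ),
    S.chain n z z' → ∃ f : ℕ → ι × ℂ × ℂ, f 0 = P.lz E C z ∧ f n = P.lz E C z' ∧
      ∀ m < n, P.GStep (f m) (f (m + 1)) := by
  intro n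
  induction n with
  | zero =>
    intro z z' h
    have h' : z = z' := h
    subst h'
    exact ⟨fun _ => P.lz E C z, rfl, rfl, fun m hm => absurd hm (Nat.not_lt_zero m)⟩
  | succ n ih =>
    intro z z' h
    obtain ⟨y, hy, hc⟩ := h
    obtain ⟨f, f0, fn, fs⟩ := ih y z' hc
    rw [hS] at hy
    refine ⟨fun m => Nat.casesOn m (P.lz E C z) f, rfl, fn, ?_⟩
    intro m hm
    cases m with
    | zero =>
      change P.GStep (P.lz E C z) (f 0)
      rw [f0]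
      exact hy
    | succ m => exact fs m (Nat.lt_of_succ_lt_succ hm)

theorem l8 : T_L1 → T_L2 → T_L3 → T_L4 → T_L5 → T_L6 → T_L7 → T_L8 := by
  intro h1 h2 h3 h4 h5 h6 h7 ι _ P E C hC hDD
  obtain ⟨a1, a2, a3, a4, a5⟩ := h2 ι P E C
  let S : HoleSys (P.Leg E C) :=
    { a := P.la E C
      b := P.lb E C
      st := P.lst E C
      ex := P.lex E C
      en := P.len' E C
      st_mem := a1
      ex_mem := fun z h => h.1
      en_mem := fun z h => h.1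
      fn := a2
      inj := a3
      loc := fun k t k' t' h => h3 ι P E C k t k' t' h
      ex_loc := fun k t => (h4 ι P E C k t).1
      en_loc := fun k t => (h4 ι P E C k t).2
      ex_st := a4
      en_st := a5
      sf_fin := (h6 ι P E C hC).1
      sb_fin := (h6 ι P E C hC).2.1 }
  refine ⟨S, rfl, rfl, rfl, rfl, rfl, ?_⟩
  intro n z z' hch hsb hsf
  obtain ⟨f, f0, fn, fs⟩ := chain_fun P E C S rfl n z z' hch
  obtain ⟨m1, m2, m3⟩ := hsb
  obtain ⟨n1, n2, n3⟩ := hsf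
  obtain ⟨w, τb, hw⟩ := (h5 ι P E C z m1).2 m2 m3
  obtain ⟨w', τ, hw'⟩ := (h5 ι P E C z' n1).1 n2 n3
  have hwf : P.VHit (f n).2.1 (f n).2.2 w' τ := by rw [fn]; exact hw'
  obtain ⟨l, T, hT, hl⟩ := h7 ι P n f fs w' τ hwf
  rw [f0] at hl
  obtain ⟨hb0, -, hb1, hbv⟩ := hw
  obtain ⟨-, -, -, hbv'⟩ := hw'
  have hx : P.lpt E C z.1 z.2 ∈ openSegment ℝ (P.p z.1.1.1) (P.q z.1.1.1) :=
    ((h1 ι P E C z.1).2.1 z.2).1 m1
  have hax : P.aff z.1.1.1 (P.lpt E C z.1 z.2) = P.lpt E C z.1 z.2 :=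
    P.aff_of_mem_segment _ _ (openSegment_subset_segment _ _ _ hx)
  obtain ⟨-, -, hrC, hvn, -⟩ := z.1.2
  have hrn : ‖P.refl z.1.1.1 z.1.1.2‖ = 1 := by rw [P.norm_refl, hvn]
  have hkey : P.affL (z.1.1.1 :: l) w' - w =
      ((T + τb : ℝ) : ℂ) * P.refl z.1.1.1 z.1.1.2 := by
    have e1 : P.affL (z.1.1.1 :: l) w' = P.aff z.1.1.1 (P.affL l w') := rfl
    have e2 : (P.lz E C z).2.1 = P.lpt E C z.1 z.2 := rfl
    have e3 : (P.lz E C z).2.2 = z.1.1.2 := rfl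
    have e4 : (P.lz E C z).1 = z.1.1.1 := rfl
    rw [e1, hl, e2, e3, P.aff_add_smul, hax, ← hb1, e2, e3, e4]
    push_cast
    ring
  have hpos : 0 < T + τb := add_pos hT hb0
  have hnorm : ‖((T + τb : ℝ) : ℂ) * P.refl z.1.1.1 z.1.1.2‖ = T + τb := by
    rw [norm_mul, hrn, mul_one, Complex.norm_real, Real.norm_of_nonneg hpos.le]
  have hne : ((T + τb : ℝ) : ℂ) ≠ 0 := by exact_mod_cast hpos.ne'
  refine hDD _ hrC ⟨z.1.1.1 :: l, w, w', hbv, hbv', ?_, ?_⟩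
  · rw [hkey, ← norm_pos_iff, hnorm]
    exact hpos
  · rw [hkey, hnorm, mul_div_cancel_left₀ _ hne]

end Pool.Agent.H31.BL.L8
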